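import Pool.Agent.H79.MT.Targets5

/-!
Modules 5F and 5W (MP_c80a4f_an, helper79)
-/

open InnerProductSpace Filter Topology
open scoped ComplexConjugate

namespace Pool.Agent.H27.MT

open Pool.Agent.H48.MT Pool.Agent.H79.MT5

variable {H : Type} [NormedAddCommGroup H] [InnerProductSpace ℂ H] [CompleteSpace H]

/-- decomposition with respect to a unit vector -/
lemma split_e (e : H) (he : ‖e‖ = 1) (a : H) : ∃ (s : ℂ) (x : H), a = s • e + x ∧
    inner ℂ x e = 0 ∧ inner ℂ e x = 0 := by
  have h1 : inner ℂ e e = (1 : ℂ) := by rw [inner_self_eq_norm_sq_to_K, he]; simp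
  have h2 : inner ℂ e (a - (inner ℂ e a) • e) = 0 := by
    rw [inner_sub_right, inner_smul_right, h1]; ring
  refine ⟨inner ℂ e a, a - (inner ℂ e a) • e, by abel, ?_, h2⟩
  rw [← inner_conj_symm, h2, map_zero]

/-- 5F -/
theorem sF : T_SF := by
  intro H _ _ _ S hS a b c d habcd
  by_cases hH : ∃ e : H, ‖e‖ = 1
  · obtain ⟨e, he⟩ := hH
    have hee : inner ℂ e e = (1 : ℂ) := by rw [inner_self_eq_norm_sq_to_K, he]; simp
    have key : ∀ a b : H, ro a b - ro ((inner ℂ b a) • e) e ∈ S := by
      intro a b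
      obtain ⟨s, x, hx, hx1, hx2⟩ := split_e e he a
      obtain ⟨t, y, hy, hy1, hy2⟩ := split_e e he b
      have hab : inner ℂ b a = conj t * s + inner ℂ y x := by
        rw [hx, hy, inner_add_left, inner_add_right, inner_add_right, inner_smul_left,
          inner_smul_left, inner_smul_right, inner_smul_right, hee, hx2, hy1]
        ring
      have h1 : ro (s • e) y ∈ S := hS _ _ (by rw [inner_smul_right, hy1, mul_zero])
      have h2 : ro x (t • e) ∈ S := hS _ _ (by rw [inner_smul_left, hx2, mul_zero])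
      have h3 : ro (x + (inner ℂ y x) • e) (y - e) ∈ S := hS _ _ (by
        rw [inner_sub_left, inner_add_right, inner_add_right, inner_smul_right, inner_smul_right,
          hee, hx2, hy1]
        ring)
      have h4 : ro x e ∈ S := hS _ _ hx2
      have h5 : ro ((inner ℂ y x) • e) y ∈ S := hS _ _ (by rw [inner_smul_right, hy1, mul_zero])
      have h6 : ro a b - ro ((inner ℂ b a) • e) e = ro (s • e) y + ro x (t • e) +
          (ro (x + (inner ℂ y x) • e) (y - e) + ro x e - ro ((inner ℂ y x) • e) y) := by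
        rw [hab, hx, hy]
        simp only [ro_add_left, ro_add_right, ro_sub_right, ro_smul_left, ro_smul_right]
        module
      rw [h6]
      exact S.add_mem (S.add_mem h1 h2) (S.sub_mem (S.add_mem h3 h4) h5)
    have h7 := S.sub_mem (key a b) (key c d)
    rw [habcd] at h7
    have h8 : ro a b - ro ((inner ℂ d c) • e) e - (ro c d - ro ((inner ℂ d c) • e) e) =
        ro a b - ro c d := by abel
    rw [h8] at h7
    exact h7
  · have h0 : ∀ x : H, x = 0 := by
      intro x
      by_contra hx
      apply hH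
      have hn : 0 < ‖x‖ := norm_pos_iff.mpr hx
      refine ⟨((‖x‖ : ℂ)⁻¹) • x, ?_⟩
      rw [norm_smul, norm_inv, Complex.norm_real, norm_norm, inv_mul_cancel₀ hn.ne']
    have h1 : ro a b - ro c d = 0 := by
      ext t
      rw [h0 ((ro a b - ro c d) t), h0 ((0 : H →L[ℂ] H) t)]
    rw [h1]
    exact S.zero_mem

/-- polarisation of rank one operators relative to `e` -/
lemma polar4 (x y e : H) : ro x y - (inner ℂ y x) • ro e e =
    (1 / 4 : ℂ) • (ro (x + y) (x + y) - (inner ℂ (x + y) (x + y)) • ro e e) -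
    (1 / 4 : ℂ) • (ro (x - y) (x - y) - (inner ℂ (x - y) (x - y)) • ro e e) +
    (Complex.I / 4 : ℂ) • (ro (x + Complex.I • y) (x + Complex.I • y) -
      (inner ℂ (x + Complex.I • y) (x + Complex.I • y)) • ro e e) -
    (Complex.I / 4 : ℂ) • (ro (x - Complex.I • y) (x - Complex.I • y) -
      (inner ℂ (x - Complex.I • y) (x - Complex.I • y)) • ro e e) := by
  have hI : Complex.I * Complex.I = -1 := Complex.I_mul_I
  simp only [ro_add_left, ro_add_right, ro_sub_left, ro_sub_right, ro_smul_left, ro_smul_right,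
    inner_add_left, inner_add_right, inner_sub_left, inner_sub_right, inner_smul_left,
    inner_smul_right, Complex.conj_I]
  match_scalars <;> first | (ring_nf; done) | (ring_nf; simp only [Complex.I_sq]; ring)

/-- the conjugate version of the polarisation -/
lemma polar4' (x y e : H) : ro x y - (inner ℂ y x) • ro e e =
    (1 / 4 : ℂ) • (ro (x + y) (x + y) - (inner ℂ (x + y) (x + y)) • ro e e) -
    (1 / 4 : ℂ) • (ro (x - y) (x - y) - (inner ℂ (x - y) (x - y)) • ro e e) +
    (-Complex.I / 4 : ℂ) • (ro (x + -Complex.I • y) (x + -Complex.I • y) -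
      (inner ℂ (x + -Complex.I • y) (x + -Complex.I • y)) • ro e e) -
    (-Complex.I / 4 : ℂ) • (ro (x - -Complex.I • y) (x - -Complex.I • y) -
      (inner ℂ (x - -Complex.I • y) (x - -Complex.I • y)) • ro e e) := by
  simp only [ro_add_left, ro_add_right, ro_sub_left, ro_sub_right, ro_smul_left, ro_smul_right,
    inner_add_left, inner_add_right, inner_sub_left, inner_sub_right, inner_smul_left,
    inner_smul_right, Complex.conj_I, map_neg]
  match_scalars <;> first | (ring_nf; done) | (ring_nf; simp only [Complex.I_sq]; ring)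

lemma IC.facts {h : ℂ → ℂ} (hh : IC h) : (∀ a b, h (a * b) = h a * h b) ∧
    (∀ r : ℝ, h (r : ℂ) = (r : ℂ)) ∧ (∀ a, h (conj a) = conj (h a)) ∧ (∀ a, h (-a) = -h a) := by
  rcases hh with h1 | h1 <;> simp [h1]

/-- 5W -/
theorem sW : T_SW := by
  intro H _ _ _ Φ hadd h δ e e' U hh he he' hUe hUadd hUsmul hUn hPD x y hxy
  obtain ⟨hmul, hreal, hconj, hneg⟩ := IC.facts hh
  have hU0 : U 0 = 0 := by
    have := hUn 0
    rwa [norm_zero, norm_eq_zero] at this
  have hΦ0 : Φ 0 = 0 := by
    have := hadd 0 0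
    simpa using this
  have hΦneg : ∀ A, Φ (-A) = -Φ A := by
    intro A
    have h1 := hadd A (-A)
    rw [add_neg_cancel, hΦ0] at h1
    exact (neg_eq_of_add_eq_zero_right h1.symm).symm
  have hΦsub : ∀ A B, Φ (A - B) = Φ A - Φ B := by
    intro A B
    rw [sub_eq_add_neg, hadd, hΦneg, ← sub_eq_add_neg]
  have hUneg : ∀ z, U (-z) = -U z := by
    intro z
    have h1 := hUadd z (-z)
    rw [add_neg_cancel, hU0] at h1
    exact (neg_eq_of_add_eq_zero_right h1.symm).symm
  have hUsub : ∀ z w, U (z - w) = U z - U w := by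
    intro z w
    rw [sub_eq_add_neg, hUadd, hUneg, ← sub_eq_add_neg]
  have hself : ∀ z : H, inner ℂ (U z) (U z) = inner ℂ z z := by
    intro z
    rw [inner_self_eq_norm_sq_to_K, inner_self_eq_norm_sq_to_K, hUn]
  have hUre : ∀ z w : H, (inner ℂ (U z) (U w)).re = (inner ℂ z w).re := by
    intro z w
    have h1 := norm_add_sq (𝕜 := ℂ) (U z) (U w)
    have h2 := norm_add_sq (𝕜 := ℂ) z w
    rw [← hUadd, hUn, hUn, hUn] at h1
    rw [h1] at h2
    simp only [RCLike.re_eq_complex_re] at h2
    linarith
  have hUin : ∀ z w : H, inner ℂ (U z) (U w) = h (inner ℂ z w) := by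
    intro z w
    have h1 := hUre z w
    have h2 := hUre z (Complex.I • w)
    rw [hUsmul, inner_smul_right, inner_smul_right] at h2
    rcases hh with h | h
    · rw [h] at h2 ⊢
      apply Complex.ext
      · exact h1
      · simp only [Complex.mul_re, Complex.I_re, Complex.I_im, zero_mul, one_mul, zero_sub] at h2
        linarith
    · rw [h] at h2 ⊢
      apply Complex.ext
      · rw [Complex.conj_re]
        exact h1
      · simp only [Complex.conj_I, neg_mul, Complex.neg_re, Complex.mul_re, Complex.I_re,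
          Complex.I_im, zero_mul, one_mul, zero_sub, neg_neg] at h2
        simp only [Complex.conj_im]
        linarith
  -- data of a vector orthogonal to `e`
  have hdat : ∀ z : H, inner ℂ z e = 0 → ∃ (n : ℝ) (w : H), z = (n : ℂ) • w ∧
      U z = (n : ℂ) • U w ∧ inner ℂ z z = (n : ℂ) ^ 2 ∧ (n = 0 ∨ PD Φ h δ w e (U w) e') := by
    intro z hz
    by_cases h0 : z = 0
    · refine ⟨0, 0, ?_, ?_, ?_, Or.inl rfl⟩
      · rw [h0]; simp
      · rw [h0, hU0]; simp
      · rw [h0]; simp
    · have hn : 0 < ‖z‖ := norm_pos_iff.mpr h0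
      have hn' : (‖z‖ : ℂ) ≠ 0 := by exact_mod_cast hn.ne'
      have hw : z = (‖z‖ : ℂ) • (((‖z‖ : ℂ)⁻¹) • z) := by
        rw [smul_smul, mul_inv_cancel₀ hn', one_smul]
      refine ⟨‖z‖, ((‖z‖ : ℂ)⁻¹) • z, hw, ?_, ?_, Or.inr ?_⟩
      · conv_lhs => rw [hw]
        rw [hUsmul, hreal]
      · rw [inner_self_eq_norm_sq_to_K]; rfl
      · apply hPD
        refine ⟨?_, he, ?_⟩
        · rw [norm_smul, norm_inv, Complex.norm_real, norm_norm, inv_mul_cancel₀ hn.ne']
        · rw [inner_smul_left, hz, mul_zero]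
  have hA : ∀ z : H, inner ℂ z e = 0 → Φ (ro z e) = δ • ro (U z) e' := by
    intro z hz
    obtain ⟨n, w, h1, h2, h3, h4⟩ := hdat z hz
    rcases h4 with h4 | h4
    · rw [h1, h4]
      simp [hU0, hΦ0]
    · have h5 := h4 (n : ℂ) 0 0
      simp only [zero_smul, add_zero] at h5
      rw [h1, ro_smul_left, h5, hreal, ← h1, h2, ro_smul_left]
      have h0 : h 0 = 0 := by
        have := hreal 0
        simpa using this
      rw [h0]
      simp
  have hB : ∀ z : H, inner ℂ z e = 0 → Φ (ro e z) = δ • ro e' (U z) := by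
    intro z hz
    obtain ⟨n, w, h1, h2, h3, h4⟩ := hdat z hz
    have h0 : h 0 = 0 := by
      have := hreal 0
      simpa using this
    rcases h4 with h4 | h4
    · rw [h1, h4]
      simp [hU0, hΦ0]
    · have h5 := h4 0 (n : ℂ) 0
      simp only [zero_smul, add_zero, zero_add] at h5
      rw [h1, ro_smul_right, Complex.conj_ofReal, h5, hreal, ← h1, h2, ro_smul_right,
        Complex.conj_ofReal, h0]
      simp
  have hG : ∀ (c : ℂ) (z : H), inner ℂ z e = 0 →
      Φ (c • (ro z z - (inner ℂ z z) • ro e e)) =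
        δ • (h c • (ro (U z) (U z) - (inner ℂ (U z) (U z)) • ro e' e')) := by
    intro c z hz
    obtain ⟨n, w, h1, h2, h3, h4⟩ := hdat z hz
    have h0 : h 0 = 0 := by
      have := hreal 0
      simpa using this
    rcases h4 with h4 | h4
    · rw [h1, h4]
      simp [hU0, hΦ0]
    · have h5 := h4 0 0 (c * (n : ℂ) ^ 2)
      have h6 : c • (ro z z - (inner ℂ z z) • ro e e) = (0 : ℂ) • ro w e + (0 : ℂ) • ro e w +
          (c * (n : ℂ) ^ 2) • (ro w w - ro e e) := by
        rw [h3]
        conv_lhs => rw [h1]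
        simp only [ro_smul_left, ro_smul_right, Complex.conj_ofReal]
        module
      have h7 : h ((n : ℂ) ^ 2) = (n : ℂ) ^ 2 := by
        have := hreal (n ^ 2)
        push_cast at this
        exact this
      rw [h6, h5, h0, hmul, h7, hself, h3, h2]
      simp only [ro_smul_left, ro_smul_right, Complex.conj_ofReal]
      module
  have hC : ∀ z w : H, inner ℂ z e = 0 → inner ℂ w e = 0 →
      Φ (ro z w - (inner ℂ w z) • ro e e) =
        δ • (ro (U z) (U w) - (inner ℂ (U w) (U z)) • ro e' e') := by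
    intro z w hz hw
    have o1 : inner ℂ (z + w) e = 0 := by rw [inner_add_left, hz, hw, add_zero]
    have o2 : inner ℂ (z - w) e = 0 := by rw [inner_sub_left, hz, hw, sub_zero]
    have o3 : inner ℂ (z + Complex.I • w) e = 0 := by
      rw [inner_add_left, inner_smul_left, hz, hw, mul_zero, add_zero]
    have o4 : inner ℂ (z - Complex.I • w) e = 0 := by
      rw [inner_sub_left, inner_smul_left, hz, hw, mul_zero, sub_zero]
    have hq : h (1 / 4) = 1 / 4 := by
      have := hreal (1 / 4)
      push_cast at this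
      exact this
    rw [polar4 z w e, hΦsub, hadd, hΦsub, hG _ _ o1, hG _ _ o2, hG _ _ o3, hG _ _ o4, hq,
      hUadd, hUsub, hUadd, hUsub, hUsmul]
    have hI4 : h (Complex.I / 4) = h Complex.I / 4 := by
      rw [div_eq_mul_inv, hmul]
      have := hreal (4⁻¹)
      push_cast at this
      rw [this, div_eq_mul_inv]
    rw [hI4]
    rcases hh with h1 | h1
    · rw [h1, polar4 (U z) (U w) e']
      module
    · rw [h1, Complex.conj_I, polar4' (U z) (U w) e']
      module
  obtain ⟨a, x1, hx, hx1, hx2⟩ := split_e e he x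
  obtain ⟨b, y1, hy, hy1, hy2⟩ := split_e e he y
  have hee : inner ℂ e e = (1 : ℂ) := by rw [inner_self_eq_norm_sq_to_K, he]; simp
  have hab : conj b * a + inner ℂ y1 x1 = 0 := by
    rw [hx, hy, inner_add_left, inner_add_right, inner_add_right, inner_smul_left,
      inner_smul_left, inner_smul_right, inner_smul_right, hee, hx2, hy1] at hxy
    linear_combination hxy
  have h1 : ro x y = ro e (conj a • y1) + ro (conj b • x1) e +
      (ro x1 y1 - (inner ℂ y1 x1) • ro e e) := by
    rw [eq_neg_of_add_eq_zero_right hab, hx, hy]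
    simp only [ro_add_left, ro_add_right, ro_smul_left, ro_smul_right, Complex.conj_conj]
    module
  have hUx : U x = h a • e' + U x1 := by rw [hx, hUadd, hUsmul, hUe]
  have hUy : U y = h b • e' + U y1 := by rw [hy, hUadd, hUsmul, hUe]
  rw [h1, hadd, hadd, hB _ (by rw [inner_smul_left, hy1, mul_zero]),
    hA _ (by rw [inner_smul_left, hx1, mul_zero]), hC _ _ hx1 hy1, hUin,
    eq_neg_of_add_eq_zero_right hab, hneg, hmul, hUx, hUy, hUsmul, hUsmul, hconj, hconj]
  simp only [ro_add_left, ro_add_right, ro_smul_left, ro_smul_right, Complex.conj_conj]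
  module

end Pool.Agent.H27.MT
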