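import Pool.Agent.H48.MT.Targets3

/-!
Module UN (MP_c80a4f_an, helper88): fixed operators with `X X* + X* X = 2` are unitary.
-/

open InnerProductSpace Filter Topology
open scoped ComplexConjugate

namespace Pool.Agent.H27.MT

open Pool.Agent.H48.MT

variable {H : Type} [NormedAddCommGroup H] [InnerProductSpace ℂ H] [CompleteSpace H]

lemma norming (X : H →L[ℂ] H) (hX : X ≠ 0) : ∃ e : ℕ → H, (∀ i, ‖e i‖ = 1) ∧
    Tendsto (fun i => ‖X (e i)‖) atTop (nhds ‖X‖) := by
  have h1 : ∀ i : ℕ, ∃ e : H, ‖e‖ = 1 ∧ ‖X‖ - 1 / ((i : ℝ) + 1) ≤ ‖X e‖ := by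
    intro i
    have hr : 0 < ‖X‖ := norm_pos_iff.mpr hX
    obtain ⟨s, hs0, hs1, hs2⟩ : ∃ s : ℝ, 0 < s ∧ s < ‖X‖ ∧ ‖X‖ - 1 / ((i : ℝ) + 1) ≤ s := by
      refine ⟨max (‖X‖ / 2) (‖X‖ - 1 / ((i : ℝ) + 1)), ?_, ?_, le_max_right _ _⟩
      · exact lt_max_of_lt_left (by linarith)
      · apply max_lt (by linarith)
        have : 0 < 1 / ((i : ℝ) + 1) := by positivity
        linarith
    obtain ⟨x, hx1, hx2⟩ := X.exists_lt_apply_of_lt_opNorm hs1
    have hx0 : x ≠ 0 := by
      rintro rfl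
      rw [map_zero, norm_zero] at hx2
      linarith
    have hn : 0 < ‖x‖ := norm_pos_iff.mpr hx0
    refine ⟨((‖x‖ : ℂ)⁻¹) • x, ?_, ?_⟩
    · rw [norm_smul, norm_inv, Complex.norm_real, norm_norm, inv_mul_cancel₀ hn.ne']
    · rw [map_smul, norm_smul, norm_inv, Complex.norm_real, norm_norm]
      have h3 : 1 ≤ ‖x‖⁻¹ := (one_le_inv₀ hn).mpr hx1.le
      nlinarith [norm_nonneg (X x)]
  choose e he1 he2 using h1
  refine ⟨e, he1, ?_⟩
  have h2 : Tendsto (fun i : ℕ => ‖X‖ - 1 / ((i : ℝ) + 1)) atTop (nhds (‖X‖ - 0)) :=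
    tendsto_const_nhds.sub tendsto_one_div_add_atTop_nhds_zero_nat
  rw [sub_zero] at h2
  refine tendsto_of_tendsto_of_tendsto_of_le_of_le h2 tendsto_const_nhds he2 (fun i => ?_)
  have := X.le_opNorm (e i)
  rw [he1, mul_one] at this
  exact this

/-- UN -/
theorem un : T_UN := by
  intro H _ _ _ L m hL X hX hj
  have hsum : ∀ x : H, ‖X x‖ ^ 2 + ‖(star X) x‖ ^ 2 = 2 * ‖x‖ ^ 2 := by
    intro x
    have h1 : inner ℂ x (jp X (star X) x) = inner ℂ x x := by rw [hj]; rfl
    have h2 : jp X (star X) x = (2 : ℂ)⁻¹ • (X ((star X) x) + (star X) (X x)) := rfl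
    rw [h2, inner_smul_right, inner_add_right] at h1
    have h3 : inner ℂ x (X ((star X) x)) = inner ℂ ((star X) x) ((star X) x) := by
      rw [ContinuousLinearMap.star_eq_adjoint, ContinuousLinearMap.adjoint_inner_left]
    have h4 : inner ℂ x ((star X) (X x)) = inner ℂ (X x) (X x) := by
      rw [ContinuousLinearMap.star_eq_adjoint, ContinuousLinearMap.adjoint_inner_right]
    rw [h3, h4, inner_self_eq_norm_sq_to_K, inner_self_eq_norm_sq_to_K, inner_self_eq_norm_sq_to_K] at h1
    have h5 : ((‖X x‖ ^ 2 + ‖(star X) x‖ ^ 2 : ℝ) : ℂ) = ((2 * ‖x‖ ^ 2 : ℝ) : ℂ) := by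
      push_cast
      have h6 : (2 : ℂ)⁻¹ * 2 = 1 := by norm_num
      linear_combination 2 * h1
    exact_mod_cast h5
  have hiso : (∀ x, ‖X x‖ = ‖x‖) ∧ ∀ x, ‖(star X) x‖ = ‖x‖ := by
    by_cases h0 : X = 0
    · have h1 : ∀ x : H, x = 0 := by
        intro x
        have := hsum x
        rw [h0] at this
        simp at this
        exact this
      constructor <;> intro x <;> rw [h1 x] <;> simp
    · obtain ⟨e, he1, he2⟩ := norming X h0
      have h1 := hL.top X hX e he1 he2
      have hr : 0 < ‖X‖ := norm_pos_iff.mpr h0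
      have h2 : Tendsto (fun i => ‖(star X) (X (e i))‖) atTop (nhds (‖X‖ ^ 2)) := by
        have hlow : Tendsto (fun i => ‖X (e i)‖ ^ 2) atTop (nhds (‖X‖ ^ 2)) := he2.pow 2
        refine tendsto_of_tendsto_of_tendsto_of_le_of_le hlow tendsto_const_nhds ?_ ?_
        · intro i
          simp only
          have h3 : inner ℂ (e i) ((star X) (X (e i))) = inner ℂ (X (e i)) (X (e i)) := by
            rw [ContinuousLinearMap.star_eq_adjoint, ContinuousLinearMap.adjoint_inner_right]
          have h4 := norm_inner_le_norm (𝕜 := ℂ) (e i) ((star X) (X (e i)))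
          rw [h3, he1, one_mul, inner_self_eq_norm_sq_to_K, norm_pow] at h4
          simpa using h4
        · intro i
          simp only
          have h3 := (star X).le_opNorm (X (e i))
          have h4 := X.le_opNorm (e i)
          rw [he1, mul_one] at h4
          rw [norm_star] at h3
          nlinarith [norm_nonneg X]
      have h3 : Tendsto (fun i => ‖X (X (e i))‖ ^ 2 + ‖(star X) (X (e i))‖ ^ 2) atTop
          (nhds ((‖X‖ ^ 2) ^ 2 + (‖X‖ ^ 2) ^ 2)) := (h1.pow 2).add (h2.pow 2)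
      have h4 : Tendsto (fun i => 2 * ‖X (e i)‖ ^ 2) atTop (nhds (2 * ‖X‖ ^ 2)) :=
        (he2.pow 2).const_mul 2
      have h5 : (fun i => ‖X (X (e i))‖ ^ 2 + ‖(star X) (X (e i))‖ ^ 2) =
          fun i => 2 * ‖X (e i)‖ ^ 2 := by
        funext i
        exact hsum (X (e i))
      rw [h5] at h3
      have h6 := tendsto_nhds_unique h3 h4
      have h7 : ‖X‖ = 1 := by
        have h8 : ‖X‖ ^ 2 * (‖X‖ ^ 2 - 1) = 0 := by nlinarith
        rcases mul_eq_zero.mp h8 with h9 | h9
        · exact absurd h9 (by positivity)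
        · nlinarith
      have h8 : ∀ x, ‖X x‖ ≤ ‖x‖ := by
        intro x
        have := X.le_opNorm x
        rwa [h7, one_mul] at this
      have h9 : ∀ x, ‖(star X) x‖ ≤ ‖x‖ := by
        intro x
        have := (star X).le_opNorm x
        rwa [norm_star, h7, one_mul] at this
      constructor
      · intro x
        have h10 := hsum x
        have h11 := h9 x
        apply le_antisymm (h8 x)
        apply le_of_sq_le_sq _ (norm_nonneg _)
        nlinarith [norm_nonneg ((star X) x), norm_nonneg x]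
      · intro x
        have h10 := hsum x
        have h11 := h8 x
        apply le_antisymm (h9 x)
        apply le_of_sq_le_sq _ (norm_nonneg _)
        nlinarith [norm_nonneg (X x), norm_nonneg x]
  have key : ∀ Y : H →L[ℂ] H, (∀ x, ‖Y x‖ = ‖x‖) → star Y * Y = 1 := by
    intro Y hY
    have := (ContinuousLinearMap.norm_map_iff_adjoint_comp_self Y).mp hY
    rw [ContinuousLinearMap.star_eq_adjoint]
    exact this
  refine ⟨key X hiso.1, ?_⟩
  have := key (star X) hiso.2
  rwa [star_star] at this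

end Pool.Agent.H27.MT
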