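import Pool.Agent.H79.MT.Targets5
import Pool.Agent.H27.MT.UN

/-!
Module 5N (MP_c80a4f_an, helper79): fixed operators of finite rank are normal
-/

open InnerProductSpace Filter Topology
open scoped ComplexConjugate

namespace Pool.Agent.H27.MT

open Pool.Agent.H48.MT Pool.Agent.H79.MT5

variable {H : Type} [NormedAddCommGroup H] [InnerProductSpace ℂ H] [CompleteSpace H]

lemma inner_star_mul (T : H →L[ℂ] H) (x y : H) :
    inner ℂ ((star T) (T x)) y = inner ℂ (T x) (T y) := by
  rw [ContinuousLinearMap.star_eq_adjoint, ContinuousLinearMap.adjoint_inner_left]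

lemma defect (T : H →L[ℂ] H) (y : H) :
    ‖(star T) (T y) - ((‖T‖ ^ 2 : ℝ) : ℂ) • y‖ ^ 2 ≤ ‖T‖ ^ 2 * (‖T‖ ^ 2 * ‖y‖ ^ 2 - ‖T y‖ ^ 2) := by
  have h1 := norm_sub_sq (𝕜 := ℂ) ((star T) (T y)) (((‖T‖ ^ 2 : ℝ) : ℂ) • y)
  rw [inner_smul_right, inner_star_mul, inner_self_eq_norm_sq_to_K, norm_smul] at h1
  have h2 : ‖(star T) (T y)‖ ≤ ‖T‖ * ‖T y‖ := by
    have := (star T).le_opNorm (T y)
    rwa [norm_star] at this
  have h3 : RCLike.re (((‖T‖ ^ 2 : ℝ) : ℂ) * (‖T y‖ : ℂ) ^ 2) = ‖T‖ ^ 2 * ‖T y‖ ^ 2 := by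
    have : (((‖T‖ ^ 2 : ℝ) : ℂ) * (‖T y‖ : ℂ) ^ 2) = ((‖T‖ ^ 2 * ‖T y‖ ^ 2 : ℝ) : ℂ) := by
      push_cast; ring
    rw [this]; exact Complex.ofReal_re _
  have h4 : ‖((‖T‖ ^ 2 : ℝ) : ℂ)‖ = ‖T‖ ^ 2 := by
    rw [Complex.norm_real, Real.norm_eq_abs, abs_of_nonneg (by positivity)]
  have h5 : ‖(star T) (T y)‖ ^ 2 ≤ (‖T‖ * ‖T y‖) ^ 2 := pow_le_pow_left₀ (norm_nonneg _) h2 2
  rw [h4] at h1
  have h6 : RCLike.re (((‖T‖ ^ 2 : ℝ) : ℂ) * ((‖T y‖ : ℝ) : ℂ) ^ 2) = ‖T‖ ^ 2 * ‖T y‖ ^ 2 := h3
  rw [h1]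
  erw [h6]
  nlinarith

lemma eig_of_norm (T : H →L[ℂ] H) (y : H) (hy : ‖T y‖ = ‖T‖ * ‖y‖) :
    (star T) (T y) = ((‖T‖ ^ 2 : ℝ) : ℂ) • y := by
  have h1 := defect T y
  rw [hy] at h1
  have h2 : ‖(star T) (T y) - ((‖T‖ ^ 2 : ℝ) : ℂ) • y‖ ^ 2 ≤ 0 := by
    refine h1.trans (le_of_eq ?_)
    ring
  have h3 : ‖(star T) (T y) - ((‖T‖ ^ 2 : ℝ) : ℂ) • y‖ = 0 := by
    have := sq_nonneg ‖(star T) (T y) - ((‖T‖ ^ 2 : ℝ) : ℂ) • y‖
    exact pow_eq_zero_iff (two_ne_zero) |>.mp (le_antisymm h2 this)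
  exact sub_eq_zero.mp (norm_eq_zero.mp h3)

/-- the norm of an operator of finite rank is attained -/
lemma attained (T : H →L[ℂ] H) (hF : FR T) (hT : T ≠ 0) : ∃ e : H, ‖e‖ = 1 ∧ ‖T e‖ = ‖T‖ := by
  obtain ⟨e, he1, he2⟩ := norming T hT
  have hr : 0 < ‖T‖ := norm_pos_iff.mpr hT
  have hr' : (((‖T‖ ^ 2 : ℝ)) : ℂ) ≠ 0 := by
    have : ‖T‖ ^ 2 ≠ 0 := by positivity
    exact_mod_cast this
  haveI : FiniteDimensional ℂ (LinearMap.range (T : H →ₗ[ℂ] H)) := hF
  haveI : ProperSpace (LinearMap.range (T : H →ₗ[ℂ] H)) := FiniteDimensional.proper_rclike ℂ _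
  obtain ⟨u, hu⟩ : ∃ u : ℕ → LinearMap.range (T : H →ₗ[ℂ] H), ∀ i, (u i : H) = T (e i) :=
    ⟨fun i => ⟨T (e i), LinearMap.mem_range_self _ _⟩, fun i => rfl⟩
  obtain ⟨a, -, φ, hφ, ha⟩ := tendsto_subseq_of_bounded (s := Metric.closedBall 0 ‖T‖)
    Metric.isBounded_closedBall (x := u) (by
      intro i
      rw [mem_closedBall_zero_iff]
      have h1 : ‖u i‖ = ‖T (e i)‖ := by rw [← hu i]; rfl
      rw [h1]
      have := T.le_opNorm (e i)
      rwa [he1, mul_one] at this)
  have ha' : Tendsto (fun i => T (e (φ i))) atTop (nhds (a : H)) := by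
    have := (continuous_subtype_val.tendsto a).comp ha
    refine this.congr (fun i => ?_)
    simp only [Function.comp]
    exact hu (φ i)
  have h1 : Tendsto (fun i => (star T) (T (e (φ i)))) atTop (nhds ((star T) (a : H))) :=
    ((star T).continuous.tendsto _).comp ha'
  have h2 : Tendsto (fun i => (star T) (T (e (φ i))) - ((‖T‖ ^ 2 : ℝ) : ℂ) • e (φ i)) atTop
      (nhds 0) := by
    rw [tendsto_zero_iff_norm_tendsto_zero]
    have h3 : Tendsto (fun i => ‖T‖ ^ 2 * (‖T‖ ^ 2 * 1 ^ 2 - ‖T (e (φ i))‖ ^ 2)) atTop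
        (nhds (‖T‖ ^ 2 * (‖T‖ ^ 2 * 1 ^ 2 - ‖T‖ ^ 2))) := by
      have h4 := he2.comp hφ.tendsto_atTop
      exact (tendsto_const_nhds.sub (h4.pow 2)).const_mul _
    have h5 : ‖T‖ ^ 2 * (‖T‖ ^ 2 * 1 ^ 2 - ‖T‖ ^ 2) = 0 := by ring
    rw [h5] at h3
    have h6 : Tendsto (fun i => ‖(star T) (T (e (φ i))) - ((‖T‖ ^ 2 : ℝ) : ℂ) • e (φ i)‖ ^ 2) atTop
        (nhds 0) := by
      refine tendsto_of_tendsto_of_tendsto_of_le_of_le tendsto_const_nhds h3
        (fun i => sq_nonneg _) (fun i => ?_)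
      have := defect T (e (φ i))
      rwa [he1] at this
    have h7 := h6.sqrt
    simp only [Real.sqrt_zero] at h7
    refine h7.congr (fun i => ?_)
    rw [Real.sqrt_sq (norm_nonneg _)]
  have h3 : Tendsto (fun i => e (φ i)) atTop
      (nhds ((((‖T‖ ^ 2 : ℝ)) : ℂ)⁻¹ • ((star T) (a : H) - 0))) := by
    have h4 := (h1.sub h2).const_smul ((((‖T‖ ^ 2 : ℝ)) : ℂ)⁻¹)
    refine h4.congr (fun i => ?_)
    rw [sub_sub_cancel, smul_smul, inv_mul_cancel₀ hr', one_smul]
  refine ⟨((((‖T‖ ^ 2 : ℝ)) : ℂ)⁻¹ • ((star T) (a : H) - 0)), ?_, ?_⟩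
  · have h4 := h3.norm
    simp only [he1] at h4
    exact (tendsto_nhds_unique h4 tendsto_const_nhds)
  · have h4 := ((T.continuous.tendsto _).comp h3).norm
    have h5 := he2.comp hφ.tendsto_atTop
    exact tendsto_nhds_unique h4 h5

/-- 5N -/
theorem sN : T_SN := by
  intro H _ _ _ L m hL
  have key : ∀ n : ℕ, ∀ T : H →L[ℂ] H, FR T →
      Module.finrank ℂ (LinearMap.range (T : H →ₗ[ℂ] H)) = n → L T = T → IsStarNormal T := by
    intro n
    induction n using Nat.strong_induction_on with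
    | _ n ih =>
      intro T hF hn hLT
      by_cases hT : T = 0
      · rw [hT]; infer_instance
      obtain ⟨e, he1, he2⟩ := attained T hF hT
      have hr : 0 < ‖T‖ := norm_pos_iff.mpr hT
      have hr' : (((‖T‖ ^ 2 : ℝ)) : ℂ) ≠ 0 := by
        have : ‖T‖ ^ 2 ≠ 0 := by positivity
        exact_mod_cast this
      haveI hFR : FiniteDimensional ℂ (LinearMap.range (T : H →ₗ[ℂ] H)) := hF
      obtain ⟨S, hS⟩ : ∃ S : Submodule ℂ H, ∀ x, x ∈ S ↔
          (star T) (T x) = ((‖T‖ ^ 2 : ℝ) : ℂ) • x := by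
        refine ⟨LinearMap.ker ((star T * T - ((‖T‖ ^ 2 : ℝ) : ℂ) • (1 : H →L[ℂ] H) : H →L[ℂ] H) :
          H →ₗ[ℂ] H), fun x => ?_⟩
        rw [LinearMap.mem_ker]
        show ((star T) (T x) - ((‖T‖ ^ 2 : ℝ) : ℂ) • x = 0) ↔ _
        exact sub_eq_zero
      have hSn : ∀ x ∈ S, ‖T x‖ = ‖T‖ * ‖x‖ := by
        intro x hx
        have h1 := inner_star_mul T x x
        rw [(hS x).mp hx, inner_smul_left, Complex.conj_ofReal, inner_self_eq_norm_sq_to_K,
          inner_self_eq_norm_sq_to_K] at h1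
        have h2 : ‖T‖ ^ 2 * ‖x‖ ^ 2 = ‖T x‖ ^ 2 := by
          have h1' : ((‖T‖ ^ 2 * ‖x‖ ^ 2 : ℝ) : ℂ) = ((‖T x‖ ^ 2 : ℝ) : ℂ) := by
            push_cast at h1 ⊢
            exact h1
          exact Complex.ofReal_injective h1'
        have h3 : (‖T‖ * ‖x‖) ^ 2 = ‖T x‖ ^ 2 := by rw [mul_pow]; exact h2
        exact ((pow_left_inj₀ (by positivity) (norm_nonneg _) two_ne_zero).mp h3).symm
      have hTS : ∀ x ∈ S, T x ∈ S := by
        intro x hx
        rw [hS]
        apply eig_of_norm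
        by_cases hx0 : x = 0
        · rw [hx0]; simp
        have hxn : 0 < ‖x‖ := norm_pos_iff.mpr hx0
        have h1 := hSn x hx
        obtain ⟨x', hx'⟩ : ∃ x', x' = ((‖x‖ : ℂ)⁻¹) • x := ⟨_, rfl⟩
        have h2 : ‖x'‖ = 1 := by
          rw [hx', norm_smul, norm_inv, Complex.norm_real, norm_norm, inv_mul_cancel₀ hxn.ne']
        have h3 : ‖T x'‖ = ‖T‖ := by
          rw [hx', map_smul, norm_smul, norm_inv, Complex.norm_real, norm_norm, h1]
          field_simp
        have h4 := hL.top T hLT (fun _ => x') (fun _ => h2) (by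
          simp only [h3]; exact tendsto_const_nhds)
        have h5 : ‖T (T x')‖ = ‖T‖ ^ 2 := tendsto_nhds_unique tendsto_const_nhds h4
        rw [hx', map_smul, map_smul, norm_smul, norm_inv, Complex.norm_real, norm_norm] at h5
        rw [h1]
        field_simp at h5
        linarith
      have hinj : ∀ x ∈ S, T x = 0 → x = 0 := by
        intro x hx h0
        have h1 := (hS x).mp hx
        rw [h0, map_zero] at h1
        rcases smul_eq_zero.mp h1.symm with h2 | h2
        · exact absurd h2 hr'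
        · exact h2
      haveI hSfin : FiniteDimensional ℂ S := by
        apply FiniteDimensional.of_injective
          (((T : H →ₗ[ℂ] H).rangeRestrict).comp S.subtype)
        rw [← LinearMap.ker_eq_bot, LinearMap.ker_eq_bot']
        intro x hx
        have h1 : T (x : H) = 0 := congrArg Subtype.val hx
        exact Subtype.ext (hinj x x.2 h1)
      have hsurj : ∀ x ∈ S, ∃ y ∈ S, T y = x := by
        have h1 : Function.Injective ((T : H →ₗ[ℂ] H).restrict hTS) := by
          rw [← LinearMap.ker_eq_bot, LinearMap.ker_eq_bot']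
          intro x hx
          have h1 : T (x : H) = 0 := congrArg Subtype.val hx
          exact Subtype.ext (hinj x x.2 h1)
        have h2 := LinearMap.injective_iff_surjective.mp h1
        intro x hx
        obtain ⟨y, hy⟩ := h2 ⟨x, hx⟩
        exact ⟨y, y.2, congrArg Subtype.val hy⟩
      have hTsS : ∀ x ∈ S, (star T) x ∈ S := by
        intro x hx
        obtain ⟨y, hy, rfl⟩ := hsurj x hx
        rw [(hS y).mp hy]
        exact S.smul_mem _ hy
      have hTT : ∀ x ∈ S, T ((star T) x) = ((‖T‖ ^ 2 : ℝ) : ℂ) • x := by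
        intro x hx
        obtain ⟨y, hy, rfl⟩ := hsurj x hx
        rw [(hS y).mp hy, map_smul]
      obtain ⟨E, hE⟩ : ∃ E : H →L[ℂ] H, E = S.starProjection := ⟨_, rfl⟩
      have hEp : IsStarProjection E := by rw [hE]; exact isStarProjection_starProjection
      have hEmem : ∀ x, E x ∈ S := by
        intro x; rw [hE]; exact Submodule.starProjection_apply_mem S x
      have hEid : ∀ x ∈ S, E x = x := by
        intro x hx; rw [hE]; exact Submodule.starProjection_eq_self_iff.mpr hx
      have h1 : E * T * E = T * E := by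
        ext x
        exact hEid _ (hTS _ (hEmem x))
      have h2 : E * star T * E = star T * E := by
        ext x
        exact hEid _ (hTsS _ (hEmem x))
      have hEs : star E = E := hEp.isSelfAdjoint
      have h3 : E * T = T * E := by
        have h4 := congrArg star h2
        simp only [star_mul, star_star, hEs] at h4
        rw [← mul_assoc] at h4
        rw [← h4, h1]
      have h3' : E * star T = star T * E := by
        have h4 := congrArg star h3
        simp only [star_mul, hEs] at h4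
        exact h4.symm
      obtain ⟨F, hFd⟩ : ∃ F : H →L[ℂ] H, F = 1 - E := ⟨_, rfl⟩
      have hFp : IsStarProjection F := by rw [hFd]; exact hEp.one_sub
      have hFs : star F = F := hFp.isSelfAdjoint
      have hFF : F * F = F := hFp.isIdempotentElem
      have hFT : F * T = T * F := by rw [hFd, sub_mul, mul_sub, one_mul, mul_one, h3]
      have hFT' : F * star T = star T * F := by rw [hFd, sub_mul, mul_sub, one_mul, mul_one, h3']
      have hL1 : L (T * F) = T * F := by
        have := (hL.red F T hFp hFT).1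
        rwa [hLT] at this
      have hle : LinearMap.range ((T * F : H →L[ℂ] H) : H →ₗ[ℂ] H) ≤
          LinearMap.range (T : H →ₗ[ℂ] H) := by
        rintro _ ⟨x, rfl⟩
        exact ⟨F x, rfl⟩
      have hEF : E * F = 0 := by
        rw [hFd, mul_sub, mul_one, hEp.isIdempotentElem.eq, sub_self]
      have hlt : LinearMap.range ((T * F : H →L[ℂ] H) : H →ₗ[ℂ] H) <
          LinearMap.range (T : H →ₗ[ℂ] H) := by
        refine lt_of_le_of_ne hle ?_
        intro heq
        have heS : e ∈ S := by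
          rw [hS]
          apply eig_of_norm
          rw [he1, he2, mul_one]
        obtain ⟨y, hy, hye⟩ := hsurj e heS
        have h4 : e ∈ LinearMap.range (T : H →ₗ[ℂ] H) := ⟨y, hye⟩
        rw [← heq] at h4
        obtain ⟨w, hw⟩ := h4
        have h5 : (E * (T * F)) w = 0 := by
          rw [← mul_assoc, h3, mul_assoc, hEF, mul_zero]
          rfl
        have h6 : (E * (T * F)) w = e := by
          show E ((T * F) w) = e
          have : (T * F) w = e := hw
          rw [this]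
          exact hEid e heS
        rw [h6] at h5
        rw [h5, norm_zero] at he1
        exact zero_ne_one he1
      have hfr : Module.finrank ℂ (LinearMap.range ((T * F : H →L[ℂ] H) : H →ₗ[ℂ] H)) < n := by
        rw [← hn]
        exact Submodule.finrank_lt_finrank_of_lt hlt
      have hFRTF : FR (T * F) := Submodule.finiteDimensional_of_le hle
      have hN := (ih _ hfr (T * F) hFRTF rfl hL1).star_comm_self
      have hN' : star (T * F) * (T * F) = (T * F) * star (T * F) := hN
      rw [star_mul, hFs] at hN'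
      have h5 : star T * T * F = T * star T * F := by
        have h6 : F * star T * (T * F) = star T * T * F := by
          rw [hFT', mul_assoc, ← mul_assoc F T F, hFT, mul_assoc T F F, hFF, mul_assoc]
        have h7 : T * F * (F * star T) = T * star T * F := by
          rw [mul_assoc, ← mul_assoc F F, hFF, hFT', mul_assoc]
        rw [← h6, ← h7]
        exact hN'
      have h8 : star T * T * E = T * star T * E := by
        ext x
        show (star T) (T (E x)) = T ((star T) (E x))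
        rw [(hS _).mp (hEmem x), hTT _ (hEmem x)]
      constructor
      show star T * T = T * star T
      have h9 : (1 : H →L[ℂ] H) = E + F := by rw [hFd]; abel
      calc star T * T = star T * T * (E + F) := by rw [← h9, mul_one]
        _ = T * star T * (E + F) := by rw [mul_add, mul_add, h5, h8]
        _ = T * star T := by rw [← h9, mul_one]
  intro T hF hLT
  exact key _ T hF rfl hLT

end Pool.Agent.H27.MT
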