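import Pool.Agent.H79.MT.Api5

/-!
Modules 5I3, 5X, 5E, 5O (MP_c80a4f_an, helper79)
-/

open InnerProductSpace Filter Topology
open scoped ComplexConjugate

namespace Pool.Agent.H27.MT

open Pool.Agent.H48.MT Pool.Agent.H79.MT5

/-- 5I3 -/
theorem sI3 (h1 : T_SI1) (h2 : T_SI2) : T_SI3 := by
  intro H _ _ _ hinf S hS T
  obtain ⟨a, b, haa, hbb, hab, hba, hsum⟩ := h1 H hinf
  obtain ⟨p, hp⟩ : ∃ p, p = star a := ⟨_, rfl⟩
  obtain ⟨q, hq⟩ : ∃ q, q = star b := ⟨_, rfl⟩
  have hsw := fun Z => h2 H a b haa hbb hab hba hsum Z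
  have hsw' := fun Z => h2 H b a hbb haa hba hab (by rw [add_comm]; exact hsum) Z
  rw [← hp] at haa hab hsum
  rw [← hq] at hbb hba hsum
  simp only [← hp, ← hq] at hsw hsw'
  -- (1)
  have e1 : ∀ X Y : H →L[ℂ] H, a * X * Y * p - b * Y * X * q ∈ S := by
    intro X Y
    have n1 : (a * X + b) * (Y * p - Y * X * q) ∈ S := by
      apply hS
      have : (Y * p - Y * X * q) * (a * X + b) = 0 := by
        calc (Y * p - Y * X * q) * (a * X + b)
            = Y * (p * a) * X + Y * (p * b) - Y * X * (q * a) * X - Y * X * (q * b) := by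
              noncomm_ring
          _ = 0 := by rw [haa, hab, hba, hbb]; noncomm_ring
      calc (a * X + b) * (Y * p - Y * X * q) * ((a * X + b) * (Y * p - Y * X * q))
          = (a * X + b) * ((Y * p - Y * X * q) * (a * X + b)) * (Y * p - Y * X * q) := by
            noncomm_ring
        _ = 0 := by rw [this]; simp
    have n2 : a * (X * Y * X) * q ∈ S := by
      apply hS
      calc a * (X * Y * X) * q * (a * (X * Y * X) * q)
          = a * (X * Y * X) * (q * a) * (X * Y * X) * q := by noncomm_ring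
        _ = 0 := by rw [hba]; simp
    have n3 : b * Y * p ∈ S := by
      apply hS
      calc b * Y * p * (b * Y * p) = b * Y * (p * b) * Y * p := by noncomm_ring
        _ = 0 := by rw [hab]; simp
    have : a * X * Y * p - b * Y * X * q =
        (a * X + b) * (Y * p - Y * X * q) + a * (X * Y * X) * q - b * Y * p := by noncomm_ring
    rw [this]
    exact S.sub_mem (S.add_mem n1 n2) n3
  -- (2)
  have e2 : ∀ X : H →L[ℂ] H, a * X * p - b * X * q ∈ S := by
    intro X
    have := e1 X 1
    simpa using this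
  have e3 : ∀ X Y : H →L[ℂ] H, a * (X * Y - Y * X) * p ∈ S := by
    intro X Y
    have : a * (X * Y - Y * X) * p = (a * X * Y * p - b * Y * X * q) -
        (a * (Y * X) * p - b * (Y * X) * q) := by noncomm_ring
    rw [this]
    exact S.sub_mem (e1 X Y) (e2 _)
  -- (3)
  have e4 : ∀ Z : H →L[ℂ] H, a * Z * p ∈ S := by
    intro Z
    obtain ⟨D, hD⟩ := hsw (q * Z * b)
    obtain ⟨D', hD'⟩ := hsw' (p * Z * a)
    have hZ : Z = a * (p * Z * a) * p + a * (p * Z * b) * q + b * (q * Z * a) * p +
        b * (q * Z * b) * q := by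
      calc Z = (a * p + b * q) * Z * (a * p + b * q) := by rw [hsum]; simp
        _ = _ := by noncomm_ring
    have c1 : a * (p * Z * a) * p = q * (b * D') - (b * D') * q := by
      have h3 : q * (b * D') = D' := by rw [← mul_assoc, hbb, one_mul]
      rw [h3]
      conv_rhs => lhs; rw [hD']
      abel
    have c4 : b * (q * Z * b) * q = p * (a * D) - (a * D) * p := by
      have h3 : p * (a * D) = D := by rw [← mul_assoc, haa, one_mul]
      rw [h3]
      conv_rhs => lhs; rw [hD]
      abel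
    have c2 : a * (p * Z * b) * q = (a * p) * (a * (p * Z * b) * q) -
        (a * (p * Z * b) * q) * (a * p) := by
      have : (a * p) * (a * (p * Z * b) * q) - (a * (p * Z * b) * q) * (a * p) =
          a * (p * a) * (p * Z * b) * q - a * (p * Z * b) * (q * a) * p := by noncomm_ring
      rw [this, haa, hba]
      simp
    have c3 : b * (q * Z * a) * p = (b * q) * (b * (q * Z * a) * p) -
        (b * (q * Z * a) * p) * (b * q) := by
      have : (b * q) * (b * (q * Z * a) * p) - (b * (q * Z * a) * p) * (b * q) =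
          b * (q * b) * (q * Z * a) * p - b * (q * Z * a) * (p * b) * q := by noncomm_ring
      rw [this, hbb, hab]
      simp
    have h5 : a * Z * p = a * (q * (b * D') - (b * D') * q) * p +
        a * ((a * p) * (a * (p * Z * b) * q) - (a * (p * Z * b) * q) * (a * p)) * p +
        a * ((b * q) * (b * (q * Z * a) * p) - (b * (q * Z * a) * p) * (b * q)) * p +
        a * (p * (a * D) - (a * D) * p) * p := by
      rw [← c1, ← c2, ← c3, ← c4]
      conv_lhs => rw [hZ]
      noncomm_ring
    rw [h5]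
    exact S.add_mem (S.add_mem (S.add_mem (e3 _ _) (e3 _ _)) (e3 _ _)) (e3 _ _)
  have e5 : ∀ Z : H →L[ℂ] H, b * Z * q ∈ S := by
    intro Z
    have : b * Z * q = a * Z * p - (a * Z * p - b * Z * q) := by abel
    rw [this]
    exact S.sub_mem (e4 Z) (e2 Z)
  have e6 : ∀ Z : H →L[ℂ] H, a * Z * q ∈ S := by
    intro Z
    apply hS
    calc a * Z * q * (a * Z * q) = a * Z * (q * a) * Z * q := by noncomm_ring
      _ = 0 := by rw [hba]; simp
  have e7 : ∀ Z : H →L[ℂ] H, b * Z * p ∈ S := by
    intro Z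
    apply hS
    calc b * Z * p * (b * Z * p) = b * Z * (p * b) * Z * p := by noncomm_ring
      _ = 0 := by rw [hab]; simp
  have hT : T = a * (p * T * a) * p + a * (p * T * b) * q + b * (q * T * a) * p +
      b * (q * T * b) * q := by
    calc T = (a * p + b * q) * T * (a * p + b * q) := by rw [hsum]; simp
      _ = _ := by noncomm_ring
  rw [hT]
  exact S.add_mem (S.add_mem (S.add_mem (e4 _) (e6 _)) (e7 _)) (e5 _)

/-- 5X -/
theorem sX (h1 : T_SD) (h2 : T_SV) (h3 : T_SW) (h4 : T_SR) : T_SX := by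
  intro H _ _ _ L m hL Φ hΦ hTwo
  obtain ⟨h, δ, hh, hδ, hPD⟩ := h1 H L m hL Φ hΦ hTwo
  obtain ⟨x0, e, hx0, he, hx0e⟩ := hTwo
  obtain ⟨e', U, he', hUe, hUadd, hUsmul, hUn, hUPD⟩ := h2 H L m hL Φ hΦ h δ hh hδ hPD e he
    ⟨x0, hx0, he, hx0e⟩
  have hU : ∀ x y : H, inner ℂ y x = 0 → Φ (ro x y) = δ • ro (U x) (U y) :=
    h3 H Φ hΦ.add h δ e e' U hh he he' hUe hUadd hUsmul hUn hUPD
  have hU0 : U 0 = 0 := by
    have := hUn 0
    rwa [norm_zero, norm_eq_zero] at this
  have hUneg : ∀ z, U (-z) = -U z := by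
    intro z
    have h5 := hUadd z (-z)
    rw [add_neg_cancel, hU0] at h5
    exact (neg_eq_of_add_eq_zero_right h5.symm).symm
  have hinj : Function.Injective U := by
    intro x y hxy
    have h5 : U (x + -y) = 0 := by rw [hUadd, hUneg, hxy, add_neg_cancel]
    have h6 := hUn (x + -y)
    rw [h5, norm_zero] at h6
    have h7 := norm_eq_zero.mp h6.symm
    rwa [← sub_eq_add_neg, sub_eq_zero] at h7
  obtain ⟨Ψ, hΨ1, hΨ2, hΨ⟩ := hΦ.exists_symm
  have hee' : inner ℂ e' e' = (1 : ℂ) := inner_self_one he'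
  have he'0 : e' ≠ 0 := by
    intro h5
    rw [h5, norm_zero] at he'
    exact zero_ne_one he'
  have hsurj : Function.Surjective U := by
    intro z
    obtain ⟨s, hs⟩ : ∃ s, s = inner ℂ e' z := ⟨_, rfl⟩
    obtain ⟨w, hw⟩ : ∃ w, w = z - s • e' := ⟨_, rfl⟩
    have hwe : inner ℂ e' w = 0 := by
      rw [hw, inner_sub_right, inner_smul_right, hee', hs]; ring
    obtain ⟨s', hs'⟩ := hh.surj s
    have hse : U (s' • e) = s • e' := by rw [hUsmul, hs', hUe]
    by_cases hw0 : w = 0
    · refine ⟨s' • e, ?_⟩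
      rw [hse]
      rw [hw0] at hw
      exact (sub_eq_zero.mp hw.symm).symm
    · obtain ⟨p, q, hp, hq, hpq, hΨw⟩ := h4 H L m hL Ψ hΨ w e' hw0 he'0 hwe
      have h5 : ro w e' = δ • ro (U p) (U q) := by
        rw [← hU p q hpq, ← hΨw, hΨ1]
      have h6 := congrArg (fun T : H →L[ℂ] H => T e') h5
      simp only [ContinuousLinearMap.smul_apply, ro_apply, hee', one_smul] at h6
      obtain ⟨c, hc⟩ := hh.surj (δ * inner ℂ (U q) e')
      refine ⟨s' • e + c • p, ?_⟩
      rw [hUadd, hse, hUsmul, hc, mul_smul, ← h6, hw]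
      abel
  refine ⟨{ U := Equiv.ofBijective U ⟨hinj, hsurj⟩, add := hUadd, nrm := hUn, s := h, hs := hh,
            smul := hUsmul }, δ, hδ, fun x y hxy => ?_⟩
  rw [cj_ro, hU x y hxy]
  rfl

/-- 5E -/
theorem sE (h1 : T_SX) (h2 : T_SB) (h3 : T_SZ) (h4 : T_SI3) (h5 : T_SJ) (h6 : T_SL) : T_SE := by
  intro H _ _ _ L m hL Φ hΦ hTwo
  obtain ⟨W, δ, hδ, hW⟩ := h1 H L m hL Φ hΦ hTwo
  obtain ⟨Φ', hΦ'⟩ : ∃ Φ' : (H →L[ℂ] H) → H →L[ℂ] H, Φ' = fun T => cj W.symm (δ⁻¹ • Φ T) := ⟨_, rfl⟩
  have hAS : AS L Φ' := by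
    refine ⟨?_, ?_, ?_⟩
    · rw [hΦ']
      have h7 : Function.Bijective (fun T : H →L[ℂ] H => δ⁻¹ • T) :=
        ⟨fun a b hab => by
          have := congrArg (fun T => δ • T) hab
          simpa [smul_smul, hδ] using this,
          fun b => ⟨δ • b, by simp [smul_smul, hδ]⟩⟩
      exact (cj_bijective W.symm).comp (h7.comp hΦ.bij)
    · intro A B
      rw [hΦ']
      simp only
      rw [hΦ.add, smul_add, cj_add]
    · intro A
      rw [hΦ']
      simp only
      rw [hL.cov, hL.hom, hΦ.com]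
  have hro : ∀ x y : H, inner ℂ y x = 0 → Φ' (ro x y) = ro x y := by
    intro x y hxy
    rw [hΦ']
    simp only
    rw [hW x y hxy, smul_smul, inv_mul_cancel₀ hδ, one_smul, cj_symm_cj]
  have hid : ∀ T, Φ' T = T := by
    by_cases hfin : FiniteDimensional ℂ H
    · exact h6 H L m hL Φ' hAS hfin hTwo hro (h5 H L m hL Φ' hAS hfin)
    · have hsq := h3 H L Φ' hAS (h2 H L m hL Φ' hAS) hro
      obtain ⟨S, hS⟩ : ∃ S : AddSubgroup (H →L[ℂ] H), ∀ A, A ∈ S ↔ Φ' A = A := by
        refine ⟨{ carrier := {A | Φ' A = A}, zero_mem' := hAS.zero, add_mem' := ?_,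
                  neg_mem' := ?_ }, fun A => Iff.rfl⟩
        · intro a b ha hb
          show Φ' (a + b) = a + b
          rw [hAS.add, ha, hb]
        · intro a ha
          show Φ' (-a) = -a
          rw [hAS.neg, ha]
      intro T
      exact (hS T).mp (h4 H hfin S (fun A hA => (hS A).mpr (hsq A hA)) T)
  refine ⟨W, δ, hδ, fun T => ?_⟩
  have h7 := hid T
  rw [hΦ'] at h7
  simp only at h7
  have h8 := congrArg (cj W) h7
  rw [cj_cj_symm] at h8
  rw [← h8, smul_smul, mul_inv_cancel₀ hδ, one_smul]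

/-- 5O -/
theorem sO (h1 : T_LM) (h2 : T_SA) (h3 : T_SE) : T_SO := by
  intro H _ _ _ L hIL hTwo w Φ hw
  obtain ⟨m, hL⟩ := h1 H L hIL
  have hone : (1 : H →L[ℂ] H) ≠ 0 := by
    obtain ⟨x, y, hx, hy, hxy⟩ := hTwo
    intro h
    have : x = 0 := by
      have := congrArg (fun T : H →L[ℂ] H => T x) h
      simpa using this
    rw [this, norm_zero] at hx
    exact zero_ne_one hx
  constructor
  · rintro ⟨hbij, hEq⟩
    obtain ⟨hAS, hwA⟩ := h2 H L m hL w Φ hw hbij hEq
    obtain ⟨W, δ, hδ, hW⟩ := h3 H L m hL Φ hAS hTwo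
    refine ⟨δ, hδ, ?_⟩
    have hws : W.s w = w := by
      have h4 := hwA 1
      rw [hW, hW, cj_smul, cj_one, smul_smul, smul_smul] at h4
      have h5 : (δ * W.s w - w * δ) • (1 : H →L[ℂ] H) = 0 := by
        rw [sub_smul, h4, sub_self]
      have h6 := (smul_eq_zero.mp h5).resolve_right hone
      have h7 : δ * (W.s w - w) = 0 := by linear_combination h6
      exact sub_eq_zero.mp ((mul_eq_zero.mp h7).resolve_left hδ)
    rcases W.hs with hs | hs
    · left
      refine ⟨{ toFun := W.U, invFun := W.U.symm, left_inv := W.U.left_inv, right_inv := W.U.right_inv,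
                map_add' := W.add, map_smul' := fun c x => by rw [W.smul, hs]; rfl,
                norm_map' := W.nrm }, fun T x => ?_⟩
      show Φ T (W.U x) = δ • W.U (T x)
      rw [hW]
      show δ • (cj W T) (W.U x) = _
      rw [cj_U]
    · right
      refine ⟨?_, ?_⟩
      · rw [hs] at hws
        have := congrArg Complex.im hws
        rw [Complex.conj_im] at this
        linarith
      · refine ⟨{ toFun := W.U, invFun := W.U.symm, left_inv := W.U.left_inv,
                  right_inv := W.U.right_inv, map_add' := W.add,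
                  map_smul' := fun c x => by rw [W.smul, hs],
                  norm_map' := W.nrm }, fun T x => ?_⟩
        show Φ T (W.U x) = δ • W.U (T x)
        rw [hW]
        show δ • (cj W T) (W.U x) = _
        rw [cj_U]
  · rintro ⟨α, hα, hUA⟩
    have key : ∀ W : UA H, W.s w = w → (∀ T x, Φ T (W.U x) = α • W.U (T x)) →
        Function.Bijective Φ ∧ Eq5 w L Φ := by
      intro W hws hΦW
      have hΦ : Φ = fun T => α • cj W T := by
        funext T
        ext y
        obtain ⟨x, rfl⟩ := W.U.surjective y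
        rw [hΦW]
        show α • W.U (T x) = α • (cj W T) (W.U x)
        rw [cj_U]
      constructor
      · rw [hΦ]
        have h7 : Function.Bijective (fun T : H →L[ℂ] H => α • T) :=
          ⟨fun a b hab => by
            have := congrArg (fun T => α⁻¹ • T) hab
            simpa [smul_smul, hα] using this,
            fun b => ⟨α⁻¹ • b, by simp [smul_smul, hα]⟩⟩
        exact h7.comp (cj_bijective W)
      · intro A B
        rw [hΦ]
        simp only
        have h4 : α • cj W A + w • α • cj W B = α • cj W (A + w • B) := by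
          rw [cj_add, cj_smul, hws, smul_add, smul_smul, smul_smul, mul_comm w]
        rw [h4, hL.hom, hL.cov]
    rcases hUA with ⟨U, hU⟩ | ⟨hwi, U, hU⟩
    · exact key (UA.ofU U) rfl hU
    · refine key (UA.ofA U) ?_ hU
      show (starRingEnd ℂ) w = w
      exact Complex.conj_eq_iff_im.mpr hwi

end Pool.Agent.H27.MT
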