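import Pool.Agent.H79.MT.Targets5

/-!
Modules 5J and 5Z (MP_c80a4f_an, helper79)
-/

open InnerProductSpace Filter Topology
open scoped ComplexConjugate

namespace Pool.Agent.H27.MT

open Pool.Agent.H48.MT Pool.Agent.H79.MT5

variable {H : Type} [NormedAddCommGroup H] [InnerProductSpace ℂ H] [CompleteSpace H]

lemma normal_iff (T : H →L[ℂ] H) : IsStarNormal T ↔ star T * T = T * star T :=
  ⟨fun h => h.star_comm_self, fun h => ⟨h⟩⟩

/-- 5J -/
theorem sJ : T_SJ := by
  intro H _ _ _ L m hL Φ hΦ hfin c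
  obtain ⟨J, hJ⟩ : ∃ J, J = Φ (c • (1 : H →L[ℂ] H)) := ⟨_, rfl⟩
  have hfix : ∀ A : H →L[ℂ] H, IsStarNormal A → IsStarNormal (Φ A) := by
    intro A hA
    apply hL.fin hfin
    rw [hΦ.com, hL.nor A hA]
  have hJn : star J * J = J * star J := by
    rw [hJ]
    apply (normal_iff _).mp
    apply hfix
    constructor
    show star (c • (1 : H →L[ℂ] H)) * (c • 1) = (c • 1) * star (c • (1 : H →L[ℂ] H))
    rw [star_smul, star_one]
    simp only [smul_mul_assoc, mul_smul_comm, one_mul, mul_one, smul_smul]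
    rw [mul_comm]
  -- the commutator identity
  have h1 : ∀ A : H →L[ℂ] H, IsStarNormal A →
      J * star (Φ A) + Φ A * star J = star J * Φ A + star (Φ A) * J := by
    intro A hA
    have hA' := (normal_iff A).mp hA
    have h2 : IsStarNormal (c • (1 : H →L[ℂ] H) + A) := by
      constructor
      show star (c • (1 : H →L[ℂ] H) + A) * (c • 1 + A) = (c • 1 + A) * star (c • (1 : H →L[ℂ] H) + A)
      rw [star_add, star_smul, star_one]
      simp only [add_mul, mul_add, smul_mul_assoc, mul_smul_comm, one_mul, mul_one, smul_smul]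
      rw [hA']
      module
    have h3 := (normal_iff _).mp (hfix _ h2)
    rw [hΦ.add, ← hJ] at h3
    have h4 := (normal_iff _).mp (hfix A hA)
    rw [star_add] at h3
    simp only [add_mul, mul_add] at h3
    rw [hJn, h4] at h3
    have h5 : J * star J + star (Φ A) * J + (star J * Φ A + Φ A * star (Φ A)) -
        (J * star J + Φ A * star (Φ A)) =
        J * star J + Φ A * star J + (J * star (Φ A) + Φ A * star (Φ A)) -
        (J * star J + Φ A * star (Φ A)) := by rw [h3]
    have h6 : star (Φ A) * J + star J * Φ A = Φ A * star J + J * star (Φ A) := by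
      calc star (Φ A) * J + star J * Φ A = J * star J + star (Φ A) * J +
            (star J * Φ A + Φ A * star (Φ A)) - (J * star J + Φ A * star (Φ A)) := by abel
        _ = _ := h5
        _ = _ := by abel
    rw [add_comm (J * star (Φ A)), ← h6, add_comm]
  have h2 : ∀ X : H →L[ℂ] H, J * star X + X * star J = star J * X + star X * J := by
    intro X
    obtain ⟨B, rfl⟩ := hΦ.bij.2 X
    obtain ⟨A1, hA1⟩ : ∃ A1 : H →L[ℂ] H, A1 = (2 : ℂ)⁻¹ • (B + star B) := ⟨_, rfl⟩
    obtain ⟨A2, hA2⟩ : ∃ A2 : H →L[ℂ] H, A2 = (2 : ℂ)⁻¹ • (B - star B) := ⟨_, rfl⟩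
    have hB : B = A1 + A2 := by
      rw [hA1, hA2]
      module
    have hs1 : star A1 = A1 := by
      rw [hA1, star_smul, star_add, star_star]
      simp [add_comm]
    have hs2 : star A2 = -A2 := by
      rw [hA2, star_smul, star_sub, star_star]
      have : star (2 : ℂ)⁻¹ = (2 : ℂ)⁻¹ := by simp
      rw [this, ← smul_neg, neg_sub]
    have n1 : IsStarNormal A1 := (normal_iff _).mpr (by rw [hs1])
    have n2 : IsStarNormal A2 := (normal_iff _).mpr (by rw [hs2]; noncomm_ring)
    have e1 := h1 A1 n1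
    have e2 := h1 A2 n2
    rw [hB, hΦ.add, star_add]
    calc J * (star (Φ A1) + star (Φ A2)) + (Φ A1 + Φ A2) * star J
        = (J * star (Φ A1) + Φ A1 * star J) + (J * star (Φ A2) + Φ A2 * star J) := by noncomm_ring
      _ = _ := by rw [e1, e2]; noncomm_ring
  have h3 : ∀ X : H →L[ℂ] H, J * star X = star X * J := by
    intro X
    have e1 := h2 X
    have e2 := h2 (Complex.I • X)
    rw [star_smul] at e2
    have hI : star Complex.I = -Complex.I := by
      rw [Complex.star_def, Complex.conj_I]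
    rw [hI] at e2
    simp only [smul_mul_assoc, mul_smul_comm, neg_smul, mul_neg, neg_mul] at e2
    have e3 : Complex.I • (-(J * star X) + X * star J - (star J * X - star X * J)) = 0 := by
      rw [smul_sub, smul_add, smul_sub, smul_neg]
      rw [e2]
      abel
    rcases smul_eq_zero.mp e3 with h | h
    · exact absurd h Complex.I_ne_zero
    · have e4 : (2 : ℂ) • (J * star X - star X * J) = 0 := by
        have e5 : (2 : ℂ) • (J * star X - star X * J) =
            (J * star X + X * star J - (star J * X + star X * J)) -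
            (-(J * star X) + X * star J - (star J * X - star X * J)) := by
          rw [two_smul]; abel
        rw [e5, h, e1]
        abel
      rcases smul_eq_zero.mp e4 with h' | h'
      · exact absurd h' two_ne_zero
      · exact sub_eq_zero.mp h'
  have h4 : ∀ X : H →L[ℂ] H, J * X = X * J := by
    intro X
    have := h3 (star X)
    rwa [star_star] at this
  rw [← hJ]
  by_cases hH : ∃ y : H, y ≠ 0
  · obtain ⟨y, hy⟩ := hH
    have hyy : inner ℂ y y ≠ (0 : ℂ) := inner_self_ne_zero.mpr hy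
    refine ⟨(inner ℂ y y)⁻¹ * inner ℂ y (J y), ?_⟩
    ext x
    have h5 := h4 (ro x y)
    rw [mul_ro] at h5
    have h6 := congrArg (fun T : H →L[ℂ] H => T y) h5
    simp only [ContinuousLinearMap.mul_apply, ro_apply] at h6
    show J x = ((inner ℂ y y)⁻¹ * inner ℂ y (J y)) • x
    rw [mul_smul, ← h6, smul_smul, inv_mul_cancel₀ hyy, one_smul]
  · push Not at hH
    refine ⟨0, ?_⟩
    ext x
    rw [hH (J x)]
    rw [hH (((0 : ℂ) • (1 : H →L[ℂ] H)) x)]

lemma sq_conj (M N : H →L[ℂ] H) (hM : M * M = 0) (hN : N * N = 0) :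
    (M + (N * M - M * N) - N * M * N) * (M + (N * M - M * N) - N * M * N) = 0 := by
  have h1 : M + (N * M - M * N) - N * M * N = (1 + N) * M * (1 - N) := by noncomm_ring
  have h2 : (1 - N) * (1 + N) = 1 := by
    have : (1 - N) * (1 + N) = 1 - N * N := by noncomm_ring
    rw [this, hN, sub_zero]
  rw [h1]
  calc (1 + N) * M * (1 - N) * ((1 + N) * M * (1 - N))
      = (1 + N) * M * ((1 - N) * (1 + N)) * M * (1 - N) := by noncomm_ring
    _ = (1 + N) * (M * M) * (1 - N) := by rw [h2]; noncomm_ring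
    _ = 0 := by rw [hM]; simp

lemma two_sq (M X Y : H →L[ℂ] H) (hM : M * M = 0) (hY : Y * Y = 0)
    (h1 : (M + X - Y) * (M + X - Y) = 0) (h2 : (M - X - Y) * (M - X - Y) = 0) :
    X * X = M * Y + Y * M := by
  have h3 : (M + X - Y) * (M + X - Y) + (M - X - Y) * (M - X - Y) =
      (2 : ℂ) • (M * M + Y * Y + X * X - (M * Y + Y * M)) := by
    rw [two_smul]
    noncomm_ring
  rw [h1, h2, hM, hY] at h3
  have h4 : (2 : ℂ) • (X * X - (M * Y + Y * M)) = 0 := by
    rw [← h3.symm.trans (by simp : (0 : H →L[ℂ] H) + 0 = 0)]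
    congr 1
    abel
  rcases smul_eq_zero.mp h4 with h | h
  · exact absurd h two_ne_zero
  · exact sub_eq_zero.mp h

/-- 5Z -/
theorem sZ (h1 : T_SF) (h2 : T_LLD) : T_SZ := by
  intro H _ _ _ L Φ hΦ hsq hro M hM
  by_cases hM0 : M = 0
  · rw [hM0, hΦ.zero]
  obtain ⟨S, hS⟩ : ∃ S : AddSubgroup (H →L[ℂ] H), ∀ A, A ∈ S ↔ Φ A = A := by
    refine ⟨{ carrier := {A | Φ A = A}, zero_mem' := hΦ.zero, add_mem' := ?_, neg_mem' := ?_ },
      fun A => Iff.rfl⟩
    · intro a b ha hb
      show Φ (a + b) = a + b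
      rw [hΦ.add, ha, hb]
    · intro a ha
      show Φ (-a) = -a
      rw [hΦ.neg, ha]
  have hSro : ∀ x y : H, inner ℂ y x = 0 → ro x y ∈ S := fun x y hxy => (hS _).mpr (hro x y hxy)
  obtain ⟨M', hM'⟩ : ∃ M', M' = Φ M := ⟨_, rfl⟩
  obtain ⟨K, hK⟩ : ∃ K, K = M - M' := ⟨_, rfl⟩
  have hM'2 : M' * M' = 0 := by rw [hM']; exact hsq M hM
  -- the main identity
  have key : ∀ x y : H, inner ℂ y x = 0 → inner ℂ y (M x) ≠ 0 → K * ro x y + ro x y * K = 0 := by
    intro x y hxy hmu
    obtain ⟨N, hN⟩ : ∃ N, N = ro x y := ⟨_, rfl⟩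
    obtain ⟨mu, hmud⟩ : ∃ mu, mu = inner ℂ y (M x) := ⟨_, rfl⟩
    have hN2 : N * N = 0 := by rw [hN, ro_mul_ro, hxy, zero_smul]
    have hNMN : N * M * N = mu • N := by
      rw [hN, mul_assoc, mul_ro, ro_mul_ro, hmud]
    have hX : N * M - M * N ∈ S := by
      rw [hN, mul_ro, ro_mul]
      apply h1 H S hSro
      rw [ContinuousLinearMap.star_eq_adjoint, ContinuousLinearMap.adjoint_inner_left]
    obtain ⟨X, hXd⟩ : ∃ X, X = N * M - M * N := ⟨_, rfl⟩
    rw [← hXd] at hX
    have hY : mu • N ∈ S := by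
      rw [hN, ← ro_smul_left]
      apply hSro
      rw [inner_smul_right, hxy, mul_zero]
    have e1 := sq_conj M N hM hN2
    rw [hNMN, ← hXd] at e1
    have e2 := sq_conj M (-N) hM (by rw [neg_mul_neg, hN2])
    have e3 : M + (-N * M - M * -N) - -N * M * -N = M - X - mu • N := by
      rw [← hNMN, hXd]; noncomm_ring
    rw [e3] at e2
    have hYY : (mu • N) * (mu • N) = 0 := by
      rw [smul_mul_assoc, mul_smul_comm, hN2, smul_zero, smul_zero]
    have e4 := two_sq M X (mu • N) hM hYY e1 e2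
    have e5 := hsq _ e1
    have e6 := hsq _ e2
    rw [hΦ.sub, hΦ.add, (hS _).mp hX, (hS _).mp hY, ← hM'] at e5
    rw [hΦ.sub, hΦ.sub, (hS _).mp hX, (hS _).mp hY, ← hM'] at e6
    have e7 := two_sq M' X (mu • N) hM'2 hYY e5 e6
    rw [e4] at e7
    have e8 : mu • (K * N + N * K) = 0 := by
      have e9 : mu • (K * N + N * K) = (M * (mu • N) + (mu • N) * M) -
          (M' * (mu • N) + (mu • N) * M') := by
        rw [hK]
        simp only [smul_mul_assoc, mul_smul_comm, smul_add, sub_mul, mul_sub, smul_sub]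
        abel
      rw [e9, e7, sub_self]
    rw [hN] at e8
    rcases smul_eq_zero.mp e8 with h | h
    · exact absurd (hmud ▸ h) hmu
    · exact h
  -- vectors with `M x ≠ 0`
  have hpair : ∀ x : H, M x ≠ 0 → ∃ y : H, inner ℂ y x = 0 ∧ inner ℂ y (M x) ≠ 0 ∧ y ≠ 0 := by
    intro x hx
    have hx0 : x ≠ 0 := by rintro rfl; exact hx (map_zero M)
    have hxx : inner ℂ x x ≠ (0 : ℂ) := inner_self_ne_zero.mpr hx0
    obtain ⟨l, hl⟩ : ∃ l, l = inner ℂ x (M x) / inner ℂ x x := ⟨_, rfl⟩
    obtain ⟨y, hy⟩ : ∃ y, y = M x - l • x := ⟨_, rfl⟩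
    have hxy : inner ℂ x y = 0 := by
      rw [hy, inner_sub_right, inner_smul_right, hl, div_mul_cancel₀ _ hxx, sub_self]
    have hyx : inner ℂ y x = 0 := by rw [← inner_conj_symm, hxy, map_zero]
    have hy0 : y ≠ 0 := by
      intro h0
      rw [hy] at h0
      have h3 : M x = l • x := sub_eq_zero.mp h0
      have h4 : (M * M) x = l • (l • x) := by
        show M (M x) = _
        rw [h3, map_smul, h3]
      rw [hM] at h4
      have h5 : l • (l • x) = 0 := h4.symm
      rcases smul_eq_zero.mp h5 with h | h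
      · rw [h, zero_smul] at h3; exact hx h3
      · rw [← h3] at h; exact hx h
    refine ⟨y, hyx, ?_, hy0⟩
    have h3 : M x = y + l • x := by rw [hy]; abel
    rw [h3, inner_add_right, inner_smul_right, hyx, mul_zero, add_zero]
    exact inner_self_ne_zero.mpr hy0
  have hKx : ∀ x : H, M x ≠ 0 → ∃ c : ℂ, K x = c • x := by
    intro x hx
    obtain ⟨y, hy1, hy2, hy0⟩ := hpair x hx
    have h3 := key x y hy1 hy2
    have h4 := congrArg (fun T : H →L[ℂ] H => T y) h3
    simp only [ContinuousLinearMap.add_apply, ContinuousLinearMap.mul_apply, ro_apply,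
      ContinuousLinearMap.zero_apply, map_smul] at h4
    have hyy : inner ℂ y y ≠ (0 : ℂ) := inner_self_ne_zero.mpr hy0
    refine ⟨-((inner ℂ y y)⁻¹ * inner ℂ y (K y)), ?_⟩
    have h5 : inner ℂ y y • K x = -(inner ℂ y (K y) • x) := eq_neg_of_add_eq_zero_left h4
    calc K x = (inner ℂ y y)⁻¹ • (inner ℂ y y • K x) := by
          rw [smul_smul, inv_mul_cancel₀ hyy, one_smul]
      _ = _ := by rw [h5, smul_neg, neg_smul, smul_smul]
  obtain ⟨x0, hx0⟩ : ∃ x : H, M x ≠ 0 := by
    by_contra h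
    push Not at h
    exact hM0 (ContinuousLinearMap.ext h)
  have hKall : ∀ x : H, ∃ c : ℂ, K x = c • (1 : H →L[ℂ] H) x := by
    intro u
    by_cases hu : M u = 0
    · by_cases hu0 : u = 0
      · exact ⟨0, by rw [hu0]; simp⟩
      obtain ⟨c0, hc0⟩ := hKx x0 hx0
      obtain ⟨c1, hc1⟩ := hKx (x0 + u) (by rw [map_add, hu, add_zero]; exact hx0)
      obtain ⟨c2, hc2⟩ := hKx (x0 - u) (by rw [map_sub, hu, sub_zero]; exact hx0)
      have hind : ∀ α β : ℂ, α • x0 + β • u = 0 → α = 0 ∧ β = 0 := by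
        intro α β h
        have h3 := congrArg M h
        rw [map_add, map_smul, map_smul, hu, smul_zero, add_zero, map_zero] at h3
        have hα : α = 0 := (smul_eq_zero.mp h3).resolve_right hx0
        rw [hα, zero_smul, zero_add] at h
        exact ⟨hα, (smul_eq_zero.mp h).resolve_right hu0⟩
      rw [map_add, hc0] at hc1
      rw [map_sub, hc0] at hc2
      have h3 : (2 * c0 - c1 - c2) • x0 + (c2 - c1) • u = 0 := by
        have h4 : (c0 • x0 + K u) + (c0 • x0 - K u) = c1 • (x0 + u) + c2 • (x0 - u) := by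
          rw [hc1, hc2]
        have h5 : (2 * c0 - c1 - c2) • x0 + (c2 - c1) • u =
            ((c0 • x0 + K u) + (c0 • x0 - K u)) - (c1 • (x0 + u) + c2 • (x0 - u)) := by module
        rw [h5, h4, sub_self]
      obtain ⟨h4, h5⟩ := hind _ _ h3
      have h6 : c1 = c0 := by linear_combination (-1 / 2 : ℂ) * h4 - (1 / 2 : ℂ) * h5
      refine ⟨c0, ?_⟩
      show K u = c0 • u
      have h7 : K u = c1 • (x0 + u) - c0 • x0 := by rw [← hc1]; abel
      rw [h7, h6]
      module
    · exact hKx u hu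
  obtain ⟨c, hc⟩ := (h2 H).1 K 1 hKall
  obtain ⟨y, hy1, hy2, hy0⟩ := hpair x0 hx0
  have h3 := key x0 y hy1 hy2
  rw [hc, smul_mul_assoc, mul_smul_comm, one_mul, mul_one, ← two_smul ℂ, smul_smul] at h3
  have hc0 : c = 0 := by
    rcases smul_eq_zero.mp h3 with h | h
    · exact (mul_eq_zero.mp h).resolve_left two_ne_zero
    · rcases ro_eq_zero.mp h with h | h
      · rw [h] at hx0; exact absurd (map_zero M) hx0
      · exact absurd h hy0
  rw [hc0, zero_smul, hK] at hc
  rw [← hM']
  exact (sub_eq_zero.mp hc).symm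

end Pool.Agent.H27.MT
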